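import Pool.Agent.Helper68.QC.St1

/-!
# Project QD, part M (MP_d112a4_gt), module MON: the diameter of a bounded open set
-/

set_option autoImplicit false

namespace Pool.Agent.Helper64.QC

open Pool.Agent.Helper68.QC
open MeasureTheory Set Filter Topology Complex
open scoped ContDiff ComplexConjugate ENNReal

private theorem mon_ray {V : Set ℂ} (hb : Bornology.IsBounded V) {P d : ℂ} (hP : P ∈ V)
    (hd : d ≠ 0) : ∃ t : ℝ, 0 ≤ t ∧ P + (t : ℂ) * d ∈ frontier V := by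
  obtain ⟨r, hr⟩ := hb.subset_closedBall 0
  have hd0 : 0 < ‖d‖ := norm_pos_iff.2 hd
  have hc : Continuous (fun t : ℝ => P + (t : ℂ) * d) := by fun_prop
  have hS : IsPreconnected ((fun t : ℝ => P + (t : ℂ) * d) '' Ici 0) :=
    isPreconnected_Ici.image _ hc.continuousOn
  have h1 : (((fun t : ℝ => P + (t : ℂ) * d) '' Ici 0) ∩ V).Nonempty := by
    refine ⟨P, ⟨0, mem_Ici.2 le_rfl, ?_⟩, hP⟩
    simp
  have h2 : (((fun t : ℝ => P + (t : ℂ) * d) '' Ici 0) ∩ Vᶜ).Nonempty := by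
    obtain ⟨t, ht⟩ : ∃ t, t = (|r| + ‖P‖ + 1) / ‖d‖ := ⟨_, rfl⟩
    have ht0 : 0 ≤ t := by
      rw [ht]
      positivity
    refine ⟨P + (t : ℂ) * d, ⟨t, ht0, rfl⟩, fun hV => ?_⟩
    have h3 := hr hV
    rw [mem_closedBall_zero_iff] at h3
    have h4 : ‖(t : ℂ) * d‖ = |r| + ‖P‖ + 1 := by
      rw [norm_mul, Complex.norm_real, Real.norm_of_nonneg ht0, ht, div_mul_cancel₀ _ hd0.ne']
    have h5 : ‖(t : ℂ) * d‖ ≤ ‖P + (t : ℂ) * d‖ + ‖P‖ := by
      have h6 : (t : ℂ) * d = (P + (t : ℂ) * d) - P := by ring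
      conv_lhs => rw [h6]
      exact norm_sub_le _ _
    have h7 := le_abs_self r
    linarith
  by_contra hcon
  push Not at hcon
  have hcov : ((fun t : ℝ => P + (t : ℂ) * d) '' Ici 0) ⊆ interior V ∪ (closure V)ᶜ := by
    rintro x ⟨t, ht, rfl⟩
    by_cases hx : P + (t : ℂ) * d ∈ closure V
    · by_cases hy : P + (t : ℂ) * d ∈ interior V
      · exact Or.inl hy
      · exact absurd ⟨hx, hy⟩ (hcon t ht)
    · exact Or.inr hx
  obtain ⟨x, hx1, hx2⟩ := h1
  obtain ⟨y, hy1, hy2⟩ := h2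
  have h3 : x ∈ interior V := by
    rcases hcov hx1 with h | h
    · exact h
    · exact absurd (subset_closure hx2) h
  have h4 : y ∈ (closure V)ᶜ := by
    rcases hcov hy1 with h | h
    · exact absurd (interior_subset h) hy2
    · exact h
  obtain ⟨z, -, hz1, hz2⟩ := hS (interior V) (closure V)ᶜ isOpen_interior
    isClosed_closure.isOpen_compl hcov ⟨x, hx1, h3⟩ ⟨y, hy1, h4⟩
  exact hz2 (subset_closure (interior_subset hz1))

/-- MON -/
theorem pMON : StMON := by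
  intro V _ hb P hP Q hQ hne
  obtain ⟨t, ht, h1⟩ := mon_ray hb hP (sub_ne_zero.2 hne)
  obtain ⟨s, hs, h2⟩ := mon_ray hb hQ (sub_ne_zero.2 hne.symm)
  refine ⟨_, h1, _, h2, ?_⟩
  have h3 : P + (t : ℂ) * (P - Q) - (Q + (s : ℂ) * (Q - P)) =
      ((1 + t + s : ℝ) : ℂ) * (P - Q) := by
    push_cast
    ring
  rw [h3, norm_mul, Complex.norm_real, Real.norm_of_nonneg (by positivity)]
  nlinarith [norm_nonneg (P - Q)]

end Pool.Agent.Helper64.QC
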