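import Pool.Agent.Helper69.QC.St

/-!
# Project QD, part C (MP_d112a4_gt), module DIF: integrated strictness
-/

set_option autoImplicit false

open Complex MeasureTheory Set Filter Topology Metric
open scoped Real ComplexConjugate

namespace Pool.Agent.Helper64.QC

open Pool.Agent.Helper69.QC

private theorem dif_ind {f : ℂ → ℝ} {r : ℝ} (hf : ContinuousOn f (sphere 0 |r|)) {T : Set ℂ}
    (hT : MeasurableSet T) : CircleIntegrable (T.indicator f) 0 r := by
  have h1 : CircleIntegrable f 0 r := hf.circleIntegrable'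
  rw [circleIntegrable_def, intervalIntegrable_iff] at h1 ⊢
  have h2 : MeasurableSet ((circleMap 0 r) ⁻¹' T) := (continuous_circleMap 0 r).measurable hT
  have h3 : (fun θ : ℝ => T.indicator f (circleMap 0 r θ)) =
      ((circleMap 0 r) ⁻¹' T).indicator (fun θ : ℝ => f (circleMap 0 r θ)) := by
    funext θ
    by_cases h : circleMap 0 r θ ∈ T
    · rw [indicator_of_mem h, indicator_of_mem (show θ ∈ (circleMap 0 r) ⁻¹' T from h)]
    · rw [indicator_of_notMem h, indicator_of_notMem (show θ ∉ (circleMap 0 r) ⁻¹' T from h)]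
  rw [h3]
  exact h1.indicator h2

/-- DIF -/
theorem cDIF (rrb : St_RRB) (mbb : St_MBB) (har : St_HAR) (poa : St_POA) (poc : St_POC) :
    St_DIF := by
  intro E hE T hT c R hc hR hst t R' ht hRR'
  obtain ⟨r0, r1, rmono, -, -, radd, -, rz⟩ := rrb
  obtain ⟨hcont, -⟩ := har E hE
  have hρ0 : 0 < rr (t + R') := by
    rw [← rz]
    exact rmono (by linarith)
  have hρ1 : rr (t + R') < 1 := r1 _
  have hrρ : rr t < rr (t + R') := rmono (by linarith)
  have hr0 : 0 ≤ rr t := r0 t ht
  have hRR0 : 0 ≤ rr R := r0 R hR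
  obtain ⟨p1, -, p3, p4⟩ := poc E hE (rr (t + R')) hρ0 hρ1
  have habs : |rr t| = rr t := abs_of_nonneg hr0
  have hsph : ∀ w ∈ sphere (0 : ℂ) |rr t|, ‖w‖ = rr t := by
    intro w hw
    rw [mem_sphere_zero_iff_norm, habs] at hw
    exact hw
  have hsub1 : sphere (0 : ℂ) |rr t| ⊆ ball 0 1 := by
    intro w hw
    rw [mem_ball_zero_iff, hsph w hw]
    exact r1 t
  have hsubρ : sphere (0 : ℂ) |rr t| ⊆ ball 0 (rr (t + R')) := by
    intro w hw
    rw [mem_ball_zero_iff, hsph w hw]
    exact hrρ
  have key : ∀ w ∈ sphere (0 : ℂ) |rr t|,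
      c * T.indicator (fun z => E z ^ 2) w ≤ E w - PI E (rr (t + R')) w := by
    intro w hw
    by_cases hwT : w ∈ T
    · rw [indicator_of_mem hwT]
      have h1 := hst w hwT (hsub1 hw)
      obtain ⟨m1, m2, m3, -⟩ := mbb w (hsub1 hw)
      have h2 := p3 (mb w) m1 (rr R) hRR0 (r1 R) (fun ζ hζ => by
        have hζ1 : ζ ∈ ball (0 : ℂ) 1 := by
          rw [mem_ball_zero_iff]
          exact hζ.trans_lt (r1 R)
        refine (m3 ζ hζ1).2.1.trans_lt ?_
        rw [hsph w hw]
        have h3 : rr (t + R) < rr (t + R') := rmono (by linarith)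
        refine lt_of_le_of_lt ?_ h3
        rw [radd t R ht hR]
        have h4 : rr t < 1 := r1 t
        rw [div_le_div_iff₀ (by nlinarith [norm_nonneg ζ, mul_nonneg hr0 (norm_nonneg ζ)])
          (by nlinarith [mul_nonneg hr0 hRR0])]
        have h5 : 0 ≤ (rr R - ‖ζ‖) * (1 - rr t ^ 2) :=
          mul_nonneg (sub_nonneg.2 hζ) (by nlinarith)
        nlinarith)
      rw [m2] at h2
      linarith
    · rw [indicator_of_notMem hwT, mul_zero]
      exact sub_nonneg.2 (poa E hE _ hρ0 hρ1 w (hsubρ hw)).1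
  have hcE : ContinuousOn E (sphere (0 : ℂ) |rr t|) := hcont.mono hsub1
  have i1 : CircleIntegrable (T.indicator (fun z => E z ^ 2)) 0 (rr t) :=
    dif_ind (hcE.pow 2) hT
  have i2 : CircleIntegrable E 0 (rr t) := hcE.circleIntegrable'
  have i3 : CircleIntegrable (PI E (rr (t + R'))) 0 (rr t) := (p1.mono hsubρ).circleIntegrable'
  have h1 : Real.circleAverage (fun w => c * T.indicator (fun z => E z ^ 2) w) 0 (rr t) ≤
      Real.circleAverage (fun w => E w - PI E (rr (t + R')) w) 0 (rr t) := by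
    refine Real.circleAverage_mono ?_ ?_ key
    · rw [circleIntegrable_def] at i1 ⊢
      exact i1.const_mul c
    · rw [circleIntegrable_def] at i2 i3 ⊢
      exact i2.sub i3
  have h2 : Real.circleAverage (fun w => c * T.indicator (fun z => E z ^ 2) w) 0 (rr t) =
      c * cm (T.indicator (fun z => E z ^ 2)) t := by
    unfold cm Real.circleAverage
    rw [smul_eq_mul, smul_eq_mul, intervalIntegral.integral_const_mul]
    ring
  have h3 : Real.circleAverage (fun w => E w - PI E (rr (t + R')) w) 0 (rr t) =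
      cm E t - Real.circleAverage (PI E (rr (t + R'))) 0 (rr t) := by
    unfold cm Real.circleAverage
    rw [smul_eq_mul, smul_eq_mul, smul_eq_mul, ← mul_sub]
    congr 1
    rw [circleIntegrable_def] at i2 i3
    exact intervalIntegral.integral_sub i2 i3
  rw [h2, h3, p4 (rr t) hr0 hrρ] at h1
  exact h1

end Pool.Agent.Helper64.QC
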